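import Mathlib

/-! Algebraic matroids of irreducible affine cones and of their secant varieties. -/

set_option autoImplicit false

namespace Pool.Agent.X331.TU

open MvPolynomial

universe u
variable {K : Type u} [Field K] {N : ℕ}

/-- `X ⊆ 𝔸^N` is an irreducible affine cone: it is Zariski closed, and its vanishing ideal is a
homogeneous prime ideal. -/
structure IsIrreducibleCone (X : Set (Fin N → K)) : Prop where
  closed : zeroLocus K (vanishingIdeal K X) = X
  prime : (vanishingIdeal K X).IsPrime
  homogeneous : ∀ f ∈ vanishingIdeal K X, ∀ d : ℕ,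
    homogeneousComponent d f ∈ vanishingIdeal K X

/-- The independent sets of the algebraic matroid `M(X)`: the sets `E` of coordinates with
`I(X) ∩ K[E] = 0`. -/
def Indep (X : Set (Fin N → K)) (E : Set (Fin N)) : Prop :=
  ∀ f ∈ vanishingIdeal K X, (f.vars : Set (Fin N)) ⊆ E → f = 0

/-- The independent sets of the matroid union `2M(X) = M(X) ∨ M(X)`. -/
def IndepTwo (X : Set (Fin N → K)) (E : Set (Fin N)) : Prop :=
  ∃ A B : Set (Fin N), Indep X A ∧ Indep X B ∧ E = A ∪ B

/-- `e` is a loop of `M(X)`: it lies in no independent set. -/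
def IsLoop (X : Set (Fin N → K)) (e : Fin N) : Prop := ∀ E, Indep X E → e ∉ E

/-- `e` is a coloop of `M(X)`: it lies in every basis, that is, in every maximal independent
set. -/
def IsColoop (X : Set (Fin N → K)) (e : Fin N) : Prop := ∀ B, Maximal (Indep X) B → e ∈ B

/-- The secant variety `X^{2}`: the Zariski closure of the set of the sums `x + y`, `x, y ∈ X`. -/
def secant (X : Set (Fin N → K)) : Set (Fin N → K) :=
  zeroLocus K (vanishingIdeal K {z | ∃ x ∈ X, ∃ y ∈ X, z = x + y})

/-- The dimension of an affine variety: the Krull dimension of its coordinate ring. -/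
noncomputable def dim (X : Set (Fin N → K)) : WithBot ℕ∞ :=
  ringKrullDim (MvPolynomial (Fin N) K ⧸ vanishingIdeal K X)

/-- `X` is defective: `dim X^{2} < min (2 dim X, N)`. -/
def Defective (X : Set (Fin N → K)) : Prop :=
  dim (secant X) < min (dim X + dim X) (N : WithBot ℕ∞)

end Pool.Agent.X331.TU
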