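import Pool.Agent.X331.TU.Sec

/-! The product cone is a counterexample. -/

set_option autoImplicit false

namespace Pool.Agent.X331.TU

open MvPolynomial

universe u
variable {K : Type u} [Field K]

theorem mon_homog (i : Fin 8) :
    (mon (X : Fin 4 → MvPolynomial (Fin 4) K) i).IsHomogeneous 4 := by
  have hX : ∀ q : Fin 4, (X q : MvPolynomial (Fin 4) K).IsHomogeneous 1 := isHomogeneous_X K
  fin_cases i
  · exact (hX 0).pow 4
  · exact ((hX 0).pow 3).mul (hX 1)
  · exact ((hX 0).pow 2).mul ((hX 1).pow 2)
  · exact (hX 0).mul ((hX 1).pow 3)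
  · exact (hX 1).pow 4
  · exact (hX 2).pow 4
  · exact ((hX 2).pow 2).mul ((hX 3).pow 2)
  · exact (hX 3).pow 4

theorem par_component (f : MvPolynomial (Fin 8) K) (d : ℕ) :
    par K (homogeneousComponent d f) = homogeneousComponent (4 * d) (par K f) := by
  have h1 : ∀ e, (par K (homogeneousComponent e f)).IsHomogeneous (4 * e) := fun e =>
    (homogeneousComponent_isHomogeneous e f).aeval _ mon_homog
  conv_rhs => rw [← sum_homogeneousComponent f]
  rw [map_sum, map_sum]
  have h2 : ∀ e, homogeneousComponent (4 * d) (par K (homogeneousComponent e f)) =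
      if e = d then par K (homogeneousComponent d f) else 0 := by
    intro e
    split_ifs with h
    · subst h
      exact (homogeneousComponent_of_mem (h1 e)).trans (if_pos rfl)
    · rw [homogeneousComponent_of_mem (h1 e), if_neg (by omega)]
  rw [Finset.sum_congr rfl fun e _ => h2 e, Finset.sum_ite_eq']
  split_ifs with h
  · rfl
  · rw [homogeneousComponent_eq_zero, map_zero]
    rw [Finset.mem_range] at h
    omega

theorem V_cone [IsAlgClosed K] : IsIrreducibleCone (V K) where
  closed := by
    apply le_antisymm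
    · intro x hx p hp
      exact hx p (le_vanishingIdeal_zeroLocus _ hp)
    · exact zeroLocus_vanishingIdeal_le _
  prime := by
    rw [vI]
    exact RingHom.ker_isPrime _
  homogeneous := by
    intro f hf d
    rw [vI, RingHom.mem_ker] at hf ⊢
    have hf' : par K f = 0 := hf
    show par K _ = 0
    rw [par_component, hf', map_zero]

theorem dim_V [IsAlgClosed K] : dim (V K) = 4 := by
  have hI := vI (K := K)
  let A := MvPolynomial (Fin 8) K ⧸ RingHom.ker (par K)
  let g : A →+* MvPolynomial (Fin 4) K := RingHom.kerLift (par K).toRingHom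
  have hg : Function.Injective g := RingHom.kerLift_injective _
  have hgm : ∀ i : Fin 8, g (Ideal.Quotient.mk _ (X i)) = mon (X : Fin 4 → MvPolynomial (Fin 4) K) i := by
    intro i
    show par K (X i) = _
    rw [par, aeval_X]
  have hgC : ∀ c : K, g (Ideal.Quotient.mk _ (C c)) = C c := by
    intro c
    show par K (C c) = _
    rw [par, aeval_C]
    rfl
  letI : Algebra A (MvPolynomial (Fin 4) K) := g.toAlgebra
  have hint : Algebra.IsIntegral A (MvPolynomial (Fin 4) K) := by
    refine ⟨fun p => ?_⟩
    induction p using MvPolynomial.induction_on with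
    | C c =>
      have : (C c : MvPolynomial (Fin 4) K) = algebraMap A _ (Ideal.Quotient.mk _ (C c)) :=
        (hgC c).symm
      rw [this]
      exact isIntegral_algebraMap
    | add p q hp hq => exact hp.add hq
    | mul_X p i hp =>
      refine hp.mul ?_
      have h4 : ∃ j : Fin 8, (X i : MvPolynomial (Fin 4) K) ^ 4 = mon X j := by
        fin_cases i
        · exact ⟨0, rfl⟩
        · exact ⟨4, rfl⟩
        · exact ⟨5, rfl⟩
        · exact ⟨7, rfl⟩
      obtain ⟨j, hj⟩ := h4
      refine IsIntegral.of_pow (n := 4) (by norm_num) ?_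
      rw [hj, ← hgm]
      exact isIntegral_algebraMap (R := A)
  have h1 : ringKrullDim A = ringKrullDim (MvPolynomial (Fin 4) K) :=
    le_antisymm (Pool.Agent.Helper834.EC.ringKrullDim_ge_of_integral hg)
      Pool.Agent.Helper834.EC.ringKrullDim_le_of_integral
  have h2 : dim (V K) = ringKrullDim A := by
    unfold dim
    rw [hI]
  rw [h2, h1, MvPolynomial.ringKrullDim_of_isNoetherianRing, ringKrullDim_eq_zero_of_field]
  simp [Nat.card_eq_fintype_card]

theorem wb_succ {t : WithBot ℕ∞} (h : t + 1 ≤ 8) : t ≤ 7 := by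
  induction t with
  | bot => exact bot_le
  | coe t =>
    have h5 : ((t + 1 : ℕ∞) : WithBot ℕ∞) ≤ ((8 : ℕ∞) : WithBot ℕ∞) := h
    rw [WithBot.coe_le_coe] at h5
    have h7 : t ≤ 7 := by
      have h8 : (8 : ℕ∞) = 7 + 1 := by norm_num
      rw [h8] at h5
      exact (ENat.add_le_add_iff_right ENat.one_ne_top).1 h5
    exact WithBot.coe_le_coe.2 h7

theorem dim_secant [Infinite K] : dim (secant (V K)) < 8 := by
  unfold dim
  rw [vI_secant]
  have hm := hank_mem (K := K)
  have h1 : ringKrullDim (MvPolynomial (Fin 8) K ⧸ vanishingIdeal K (sums (V K))) ≤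
      ringKrullDim (MvPolynomial (Fin 8) K ⧸ Ideal.span {hank K}) := by
    refine ringKrullDim_le_of_surjective (Ideal.Quotient.factor ?_)
      (Ideal.Quotient.factor_surjective _)
    rw [Ideal.span_singleton_le_iff_mem]
    exact hm
  have h2 := ringKrullDim_quotient_succ_le_of_nonZeroDivisor
    (mem_nonZeroDivisors_of_ne_zero (hank_ne (K := K)))
  rw [MvPolynomial.ringKrullDim_of_isNoetherianRing, ringKrullDim_eq_zero_of_field] at h2
  have h3 : (0 : WithBot ℕ∞) + (Nat.card (Fin 8) : WithBot ℕ∞) = 8 := by
    rw [Nat.card_eq_fintype_card, Fintype.card_fin]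
    norm_num
  rw [h3] at h2
  have h4 : ringKrullDim (MvPolynomial (Fin 8) K ⧸ Ideal.span {hank K}) ≤ 7 := wb_succ h2
  refine lt_of_le_of_lt (h1.trans h4) ?_
  exact_mod_cast (by norm_num : (7 : ℕ) < 8)

theorem V_defective [IsAlgClosed K] : Defective (V K) := by
  have : Infinite K := IsAlgClosed.instInfinite
  unfold Defective
  rw [dim_V]
  refine lt_of_lt_of_le dim_secant ?_
  have h : (4 : WithBot ℕ∞) + 4 = 8 := by norm_num
  rw [h]
  simp

end Pool.Agent.X331.TU
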