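import Mathlib

/-! Jacobian criterion over any field of characteristic zero. -/

set_option autoImplicit false

namespace Pool.Agent.X331.TU

open MvPolynomial

universe u
variable {K : Type u} [Field K]

theorem jd_chain {ι κ : Type} [Fintype κ] (φ : κ → MvPolynomial ι K) (p : ι)
    (F : MvPolynomial κ K) :
    pderiv p (aeval φ F) = ∑ m, aeval φ (pderiv m F) * pderiv p (φ m) := by
  classical
  induction F using MvPolynomial.induction_on with
  | C a => simp [aeval_C, algebraMap_eq]
  | add f g hf hg =>
    simp only [map_add, hf, hg, add_mul, Finset.sum_add_distrib]
  | mul_X f n hf =>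
    simp only [map_mul, aeval_X, pderiv_mul, hf, map_add, add_mul, Finset.sum_add_distrib, pderiv_X]
    congr 1
    · rw [Finset.sum_mul]
      exact Finset.sum_congr rfl fun m _ => by ring
    · rw [Finset.sum_eq_single n]
      · simp
      · intro b _ hb
        rw [Pi.single_eq_of_ne (Ne.symm hb)]
        simp
      · simp

theorem jd_zero {ι κ : Type} [Fintype κ] (g : κ → ι → MvPolynomial ι K)
    (H : ∀ v : κ → K, (∀ p : ι, ∑ m, v m * eval 0 (g m p) = 0) → v = 0)
    (w : κ → MvPolynomial ι K) (hw : ∀ p, ∑ m, w m * g m p = 0) : ∀ m, w m = 0 := by
  classical
  have key : ∀ n : ℕ, ∀ s : ι →₀ ℕ, s.degree = n → ∀ m, coeff s (w m) = 0 := by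
    intro n
    induction n using Nat.strong_induction_on with
    | _ n ih =>
      intro s hs
      have := H (fun m => coeff s (w m)) ?_
      · intro m
        exact congrFun this m
      · intro p
        have h1 := congrArg (coeff s) (hw p)
        rw [coeff_sum, coeff_zero] at h1
        rw [← h1]
        refine Finset.sum_congr rfl fun m _ => ?_
        rw [coeff_mul, Finset.sum_eq_single (s, 0)]
        · have e0 : eval 0 (g m p) = coeff 0 (g m p) := by
            rw [← constantCoeff_eq, eval_zero]
          rw [e0]
        · rintro ⟨a, b⟩ hab hne
          have hab : a + b = s := by simpa using hab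
          have hb : b ≠ 0 := by
            rintro rfl
            apply hne
            rw [add_zero] at hab
            rw [hab]
          have hdeg : a.degree + b.degree = n := by
            rw [← hs, ← hab, map_add]
          have hb' : b.degree ≠ 0 := by
            intro h
            exact hb ((Finsupp.degree_eq_zero_iff b).1 h)
          rw [ih a.degree (by omega) a rfl m, zero_mul]
        · intro h
          exact absurd (by simp) h
  intro m
  ext s
  rw [coeff_zero]
  exact key _ s rfl m

/-- Jacobian criterion: if the Jacobian matrix of the polynomials `φ m` at `0` has independent rows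
(characteristic 0), the `φ m` satisfy no polynomial relation. -/
theorem jacobian_dominant [CharZero K] {ι κ : Type} [Fintype κ] (φ : κ → MvPolynomial ι K)
    (H : ∀ v : κ → K, (∀ p : ι, ∑ m, v m * eval 0 (pderiv p (φ m)) = 0) → v = 0)
    (F : MvPolynomial κ K) (hF : aeval φ F = 0) : F = 0 := by
  classical
  have key : ∀ n : ℕ, ∀ F : MvPolynomial κ K, (∀ s : κ →₀ ℕ, n ≤ s.degree → coeff s F = 0) →
      aeval φ F = 0 → F = 0 := by
    intro n
    induction n with
    | zero =>
      intro F hs _
      ext s
      rw [hs s (Nat.zero_le _), coeff_zero]
    | succ n ih =>
      intro F hs hF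
      have hw : ∀ m, aeval φ (pderiv m F) = 0 := by
        refine jd_zero (fun m p => pderiv p (φ m)) H _ ?_
        intro p
        rw [← jd_chain φ p F, hF, map_zero]
      have hd : ∀ m, pderiv m F = 0 := by
        intro m
        refine ih _ ?_ (hw m)
        intro s hsn
        rw [coeff_pderiv, hs, zero_mul]
        rw [map_add, Finsupp.degree_single]
        omega
      have hC : F = C (coeff 0 F) := by
        ext s
        rw [coeff_C]
        split_ifs with h
        · rw [h]
        · have : ∃ i, s i ≠ 0 := by
            by_contra hcon
            push Not at hcon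
            exact h (Finsupp.ext hcon).symm
          obtain ⟨i, hi⟩ := this
          have h2 : s - Finsupp.single i 1 + Finsupp.single i 1 = s := by
            ext j
            by_cases hj : j = i
            · subst hj
              simp
              omega
            · simp [Finsupp.single_eq_of_ne hj]
          have h3 := coeff_pderiv (i := i) F (s - Finsupp.single i 1)
          rw [hd i, coeff_zero, h2] at h3
          rcases mul_eq_zero.1 h3.symm with h4 | h4
          · exact h4
          · exact absurd h4 (Nat.cast_add_one_ne_zero _)
      rw [hC] at hF
      rw [aeval_C, algebraMap_eq] at hF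
      rw [hC, (C_eq_zero).1 hF, C_0]
  refine key (F.support.sup (fun s => s.degree) + 1) F ?_ hF
  intro s hs
  by_contra h
  have : s.degree ≤ F.support.sup (fun s => s.degree) :=
    Finset.le_sup (f := fun s => s.degree) (mem_support_iff.2 h)
  omega

end Pool.Agent.X331.TU
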