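import Pool.Agent.X331.TU.Jac
import Pool.Agent.X331.TU.Defs
import Pool.Agent.Helper834.EC.Dim1

/-! The product of the cone over the rational normal quartic with a quadric cone. -/

set_option autoImplicit false

namespace Pool.Agent.X331.TU

open MvPolynomial

universe u

/-- The eight monomials. -/
def mon {R : Type u} [CommSemiring R] (x : Fin 4 → R) : Fin 8 → R :=
  ![x 0 ^ 4, x 0 ^ 3 * x 1, x 0 ^ 2 * x 1 ^ 2, x 0 * x 1 ^ 3, x 1 ^ 4,
    x 2 ^ 4, x 2 ^ 2 * x 3 ^ 2, x 3 ^ 4]

/-- Their partial derivatives. -/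
def dmon {R : Type u} [CommSemiring R] (x : Fin 4 → R) : Fin 8 → Fin 4 → R :=
  ![![4 * x 0 ^ 3, 0, 0, 0], ![3 * x 0 ^ 2 * x 1, x 0 ^ 3, 0, 0],
    ![2 * x 0 * x 1 ^ 2, 2 * x 0 ^ 2 * x 1, 0, 0], ![x 1 ^ 3, 3 * x 0 * x 1 ^ 2, 0, 0],
    ![0, 4 * x 1 ^ 3, 0, 0], ![0, 0, 4 * x 2 ^ 3, 0], ![0, 0, 2 * x 2 * x 3 ^ 2, 2 * x 2 ^ 2 * x 3],
    ![0, 0, 0, 4 * x 3 ^ 3]]

variable {K : Type u} [Field K]

theorem pderiv_mon {ι : Type} (y : Fin 4 → MvPolynomial ι K) (p : ι) (m : Fin 8) :
    pderiv p (mon y m) = ∑ q, dmon y m q * pderiv p (y q) := by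
  rw [Fin.sum_univ_four]
  fin_cases m <;>
    simp [mon, dmon, Derivation.leibniz, Derivation.leibniz_pow, smul_eq_mul, nsmul_eq_mul] <;>
    ring

theorem map_mon {R S : Type u} [CommSemiring R] [CommSemiring S] (f : R →+* S) (x : Fin 4 → R)
    (m : Fin 8) : f (mon x m) = mon (fun q => f (x q)) m := by
  fin_cases m <;> simp [mon]

theorem map_dmon {R S : Type u} [CommSemiring R] [CommSemiring S] (f : R →+* S) (x : Fin 4 → R)
    (m : Fin 8) (q : Fin 4) : f (dmon x m q) = dmon (fun q => f (x q)) m q := by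
  fin_cases m <;> fin_cases q <;> simp [dmon, map_ofNat]

variable (K) in
/-- The parametrisation. -/
noncomputable def par : MvPolynomial (Fin 8) K →ₐ[K] MvPolynomial (Fin 4) K :=
  aeval (mon (X : Fin 4 → MvPolynomial (Fin 4) K))

variable (K) in
/-- The cone. -/
noncomputable def V : Set (Fin 8 → K) := zeroLocus K (RingHom.ker (par K))

theorem vI [IsAlgClosed K] : vanishingIdeal K (V K) = RingHom.ker (par K) := by
  rw [V, vanishingIdeal_zeroLocus_eq_radical]
  exact (RingHom.ker_isPrime (par K : MvPolynomial (Fin 8) K →+* MvPolynomial (Fin 4) K)).radical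

theorem aeval_mon (x : Fin 4 → K) (p : MvPolynomial (Fin 8) K) :
    aeval (mon x) p = eval x (par K p) := by
  have h : (aeval (mon x) : MvPolynomial (Fin 8) K →ₐ[K] K) = (aeval x).comp (par K) := by
    apply MvPolynomial.algHom_ext
    intro i
    rw [AlgHom.comp_apply, par, aeval_X, aeval_X]
    have := map_mon (aeval x : MvPolynomial (Fin 4) K →ₐ[K] K).toRingHom (X : Fin 4 → MvPolynomial (Fin 4) K) i
    refine Eq.trans ?_ this.symm
    congr 1
    funext q
    simp
  rw [h]
  rfl

theorem mon_mem (x : Fin 4 → K) : mon x ∈ V K := by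
  intro p hp
  rw [aeval_mon]
  rw [RingHom.mem_ker] at hp
  have hp' : par K p = 0 := hp
  rw [hp', map_zero]

theorem Indep.mono {N : ℕ} {Y : Set (Fin N → K)} {E F : Set (Fin N)} (h : Indep Y F) (hEF : E ⊆ F) :
    Indep Y E := fun f hf hv => h f hf (hv.trans hEF)

/-- The Jacobian criterion for independence. -/
theorem indep_of_jac [CharZero K] {N n : ℕ} {Y : Set (Fin N → K)} {ι : Type} [Finite ι]
    (φ : Fin N → MvPolynomial ι K) (hφ : ∀ x : ι → K, (fun i => eval x (φ i)) ∈ Y)
    (e : Fin n → Fin N) (he : Function.Injective e)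
    (H : ∀ v : Fin n → K, (∀ p : ι, ∑ m, v m * eval 0 (pderiv p (φ (e m))) = 0) → v = 0) :
    Indep Y (Set.range e) := by
  intro f hf hv
  obtain ⟨F, rfl⟩ := exists_rename_eq_of_vars_subset_range f e he hv
  have h1 : aeval (fun m => φ (e m)) F = 0 := by
    apply MvPolynomial.funext
    intro x
    have h2 := hf _ (hφ x)
    rw [aeval_rename] at h2
    rw [map_zero, ← h2]
    have h : ((aeval x : MvPolynomial ι K →ₐ[K] K)).comp (aeval (fun m => φ (e m))) =
        (aeval ((fun i => eval x (φ i)) ∘ e) : MvPolynomial (Fin n) K →ₐ[K] K) := by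
      apply MvPolynomial.algHom_ext
      intro i
      simp [aeval_X, aeval_eq_eval]
    rw [← h]
    rfl
  rw [jacobian_dominant (fun m => φ (e m)) H F h1, map_zero]

/-- the point `a + x` -/
noncomputable def shift {ι : Type} (a : Fin 4 → K) (j : Fin 4 → ι) (q : Fin 4) : MvPolynomial ι K :=
  C (a q) + X (j q)

theorem jac_shift {ι : Type} (a : Fin 4 → K) (j : Fin 4 → ι) (hj : Function.Injective j)
    (m : Fin 8) (p : Fin 4) :
    eval 0 (pderiv (j p) (mon (shift a j) m)) = dmon a m p := by
  classical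
  rw [pderiv_mon, map_sum, Finset.sum_eq_single p]
  · rw [map_mul, map_dmon]
    simp [shift]
  · intro q _ hq
    have : j q ≠ j p := fun h => hq (hj h)
    simp [shift, pderiv_X, Pi.single_eq_of_ne, this]
  · simp

theorem jac_shift_ne {ι : Type} (a : Fin 4 → K) (j : Fin 4 → ι) (m : Fin 8) (p : ι)
    (hp : ∀ q, j q ≠ p) :
    eval 0 (pderiv p (mon (shift a j) m)) = 0 := by
  classical
  rw [pderiv_mon, map_sum]
  refine Finset.sum_eq_zero fun q _ => ?_
  simp [shift, pderiv_X, Pi.single_eq_of_ne, hp q]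


theorem eval_shift {ι : Type} (a : Fin 4 → K) (j : Fin 4 → ι) (x : ι → K) :
    (fun i => eval x (mon (shift a j) i)) = mon (fun q => a q + x (j q)) := by
  funext i
  rw [map_mon]
  congr 1
  funext q
  simp [shift]

theorem dmon_hi (k : Fin 8) (hk : 5 ≤ k.val) (a : Fin 4 → K) : dmon a k 0 = 0 ∧ dmon a k 1 = 0 := by
  fin_cases k <;> simp [dmon] at hk ⊢

theorem dmon_lo (k : Fin 8) (hk : k.val ≤ 4) (a : Fin 4 → K) : dmon a k 2 = 0 ∧ dmon a k 3 = 0 := by
  fin_cases k <;> simp [dmon] at hk ⊢

/-- Independent sets of `M(V)`: two coordinates of each block. -/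
theorem indep4 [CharZero K] (i j k l : Fin 8) (hij : i < j) (hj : j.val ≤ 4) (hk : 5 ≤ k.val)
    (hkl : k < l) : Indep (V K) ({i, j, k, l} : Set (Fin 8)) := by
  have hr : ({i, j, k, l} : Set (Fin 8)) = Set.range ![i, j, k, l] := by
    ext x
    simp [eq_comm]
    tauto
  rw [hr]
  have he : Function.Injective ![i, j, k, l] := by
    intro a b hab
    have h1 : i ≠ j := hij.ne
    have h2 : k ≠ l := hkl.ne
    have h3 : i ≠ k := by intro h; subst h; omega
    have h4 : i ≠ l := by intro h; subst h; omega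
    have h5 : j ≠ k := by intro h; subst h; omega
    have h6 : j ≠ l := by intro h; subst h; omega
    fin_cases a <;> fin_cases b <;> simp_all
  refine indep_of_jac (ι := Fin 4) (mon (shift (fun _ => (1 : K)) id)) (fun x => ?_) _ he ?_
  · rw [eval_shift]
    exact mon_mem _
  · intro v hv
    have hv' : ∀ p : Fin 4, ∑ m, v m * dmon (fun _ => (1 : K)) (![i, j, k, l] m) p = 0 := by
      intro p
      rw [← hv p]
      refine Finset.sum_congr rfl fun m _ => ?_
      rw [← jac_shift (fun _ => (1 : K)) id Function.injective_id]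
      rfl
    have h0 := hv' 0
    have h1 := hv' 1
    have h2 := hv' 2
    have h3 := hv' 3
    have hk1 := dmon_hi k hk (fun _ => (1 : K))
    have hl1 := dmon_hi l (by omega) (fun _ => (1 : K))
    have hi1 := dmon_lo i (by omega) (fun _ => (1 : K))
    have hj1 := dmon_lo j hj (fun _ => (1 : K))
    simp only [Fin.sum_univ_four, Matrix.cons_val] at h0 h1 h2 h3
    rw [hk1.1, hl1.1, mul_zero, mul_zero, add_zero, add_zero] at h0
    rw [hk1.2, hl1.2, mul_zero, mul_zero, add_zero, add_zero] at h1
    rw [hi1.1, hj1.1, mul_zero, mul_zero, zero_add, zero_add] at h2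
    rw [hi1.2, hj1.2, mul_zero, mul_zero, zero_add, zero_add] at h3
    clear hv hv' he hr hk1 hl1 hi1 hj1
    have key1 : v 0 = 0 ∧ v 1 = 0 := by
      clear h2 h3
      fin_cases i <;> fin_cases j <;>
        first
        | (exfalso; revert hij hj; decide)
        | (simp [dmon] at h0 h1
           constructor <;> grind)
    have key2 : v 2 = 0 ∧ v 3 = 0 := by
      clear h0 h1 key1
      fin_cases k <;> fin_cases l <;>
        first
        | (exfalso; revert hk hkl; decide)
        | (simp [dmon] at h2 h3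
           constructor <;> grind)
    funext m
    fin_cases m
    · exact key1.1
    · exact key1.2
    · exact key2.1
    · exact key2.2

/-- a coordinate block relation -/
theorem not_indep_lo [IsAlgClosed K] (i j k : Fin 8) (hij : i < j) (hjk : j < k) (hk : k.val ≤ 4)
    {E : Set (Fin 8)} (hi : i ∈ E) (hj : j ∈ E) (hkE : k ∈ E) : ¬ Indep (V K) E := by
  classical
  intro h
  let f : MvPolynomial (Fin 8) K := X j ^ (k.val - i.val) -
    X i ^ (k.val - j.val) * X k ^ (j.val - i.val)
  have hf : f ∈ vanishingIdeal K (V K) := by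
    rw [vI, RingHom.mem_ker]
    show par K f = 0
    simp only [f, par, map_sub, map_mul, map_pow, aeval_X]
    rw [sub_eq_zero]
    clear f hi hj hkE h
    fin_cases i <;> fin_cases j <;>
        first
        | (exfalso; revert hij; decide)
        | (fin_cases k <;>
            first
            | (exfalso; revert hjk hk; decide)
            | (simp [mon]; ring))
  have h0 : f = 0 := by
    apply h f hf
    intro x hx
    have h1 : f.vars ⊆ {i, j, k} := by
      refine (vars_sub_subset _).trans ?_
      refine Finset.union_subset ((vars_pow _ _).trans (by rw [vars_X]; simp)) ?_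
      refine (vars_mul _ _).trans (Finset.union_subset ((vars_pow _ _).trans (by rw [vars_X]; simp))
        ((vars_pow _ _).trans (by rw [vars_X]; simp)))
    have h2 := h1 hx
    simp only [Finset.mem_insert, Finset.mem_singleton] at h2
    rcases h2 with rfl | rfl | rfl <;> assumption
  have h1 := congrArg (eval (fun x => if x = j then (1 : K) else 0)) h0
  have hne : i ≠ j := hij.ne
  have h2 : 0 < k.val - j.val := by omega
  simp [f, hne, h2.ne'] at h1

theorem not_indep_hi [IsAlgClosed K] {E : Set (Fin 8)} (h5 : (5 : Fin 8) ∈ E) (h6 : (6 : Fin 8) ∈ E)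
    (h7 : (7 : Fin 8) ∈ E) : ¬ Indep (V K) E := by
  classical
  intro h
  let f : MvPolynomial (Fin 8) K := X 6 ^ 2 - X 5 * X 7
  have hf : f ∈ vanishingIdeal K (V K) := by
    rw [vI, RingHom.mem_ker]
    show par K f = 0
    simp only [f, par, map_sub, map_mul, map_pow, aeval_X]
    simp [mon]
    ring
  have h0 : f = 0 := by
    apply h f hf
    intro x hx
    have h1 : f.vars ⊆ {5, 6, 7} := by
      refine (vars_sub_subset _).trans ?_
      refine Finset.union_subset ((vars_pow _ _).trans (by rw [vars_X]; simp)) ?_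
      refine (vars_mul _ _).trans (Finset.union_subset (by rw [vars_X]; simp)
        (by rw [vars_X]; simp))
    have h2 := h1 hx
    simp only [Finset.mem_insert, Finset.mem_singleton] at h2
    rcases h2 with rfl | rfl | rfl <;> assumption
  have h1 := congrArg (eval (fun x => if x = 6 then (1 : K) else 0)) h0
  simp [f] at h1

end Pool.Agent.X331.TU
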