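import Pool.Agent.X331.TU.Main

/-! The secant variety of the product cone. -/

set_option autoImplicit false

namespace Pool.Agent.X331.TU

open MvPolynomial

universe u
variable {K : Type u} [Field K]

/-- the set of sums -/
def sums {N : ℕ} (X : Set (Fin N → K)) : Set (Fin N → K) := {z | ∃ x ∈ X, ∃ y ∈ X, z = x + y}

theorem vI_secant {N : ℕ} (Y : Set (Fin N → K)) :
    vanishingIdeal K (secant Y) = vanishingIdeal K (sums Y) := by
  apply le_antisymm
  · intro f hf x hx
    exact hf x (zeroLocus_vanishingIdeal_le _ hx)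
  · exact le_vanishingIdeal_zeroLocus _

theorem indep_secant_iff {N : ℕ} (Y : Set (Fin N → K)) (E : Set (Fin N)) :
    Indep (secant Y) E ↔ Indep (sums Y) E := by
  unfold Indep
  rw [vI_secant]

theorem vanish_of_image [Infinite K] (f : MvPolynomial (Fin 8) K)
    (h : ∀ a : Fin 4 → K, aeval (mon a) f = 0) : ∀ x ∈ V K, aeval x f = 0 := by
  intro x hx
  apply hx
  rw [RingHom.mem_ker]
  show par K f = 0
  apply MvPolynomial.funext
  intro a
  rw [map_zero, ← h a, aeval_mon]

/-- The Hankel determinant. -/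
noncomputable def hank (K : Type u) [Field K] : MvPolynomial (Fin 8) K :=
  X 0 * X 2 * X 4 + 2 * X 1 * X 2 * X 3 - X 2 ^ 3 - X 0 * X 3 ^ 2 - X 1 ^ 2 * X 4

theorem aeval_hank (z : Fin 8 → K) : aeval z (hank K) =
    z 0 * z 2 * z 4 + 2 * z 1 * z 2 * z 3 - z 2 ^ 3 - z 0 * z 3 ^ 2 - z 1 ^ 2 * z 4 := by
  simp [hank]

theorem hank_mem [Infinite K] : hank K ∈ vanishingIdeal K (sums (V K)) := by
  -- translation of a polynomial
  have tr : ∀ (y x : Fin 8 → K) (f : MvPolynomial (Fin 8) K),
      aeval x (aeval (fun i => X i + C (y i)) f) = aeval (x + y) f := by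
    intro y x f
    have : ((aeval x : MvPolynomial (Fin 8) K →ₐ[K] K)).comp (aeval (fun i => X i + C (y i))) =
        (aeval (x + y) : MvPolynomial (Fin 8) K →ₐ[K] K) := by
      apply MvPolynomial.algHom_ext
      intro i
      simp
    rw [← this]
    rfl
  have h1 : ∀ a b : Fin 4 → K, aeval (mon a + mon b) (hank K) = 0 := by
    intro a b
    rw [aeval_hank]
    simp [mon]
    ring
  have h2 : ∀ (b : Fin 4 → K), ∀ x ∈ V K, aeval (x + mon b) (hank K) = 0 := by
    intro b x hx
    rw [← tr]
    refine vanish_of_image _ (fun a => ?_) x hx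
    rw [tr]
    exact h1 a b
  rintro z ⟨x, hx, y, hy, rfl⟩
  rw [add_comm, ← tr]
  refine vanish_of_image _ (fun a => ?_) y hy
  rw [tr, add_comm]
  exact h2 a x hx

theorem hank_ne : hank K ≠ 0 := by
  intro h
  have h1 := congrArg (aeval (fun i : Fin 8 => if i = 2 then (1 : K) else 0)) h
  rw [aeval_hank] at h1
  simp at h1

theorem hank_vars : ((hank K).vars : Set (Fin 8)) ⊆ {x | x.val ≤ 4} := by
  classical
  intro x hx
  have h2 : (2 : MvPolynomial (Fin 8) K) = C 2 := (map_ofNat C 2).symm
  have h1 : (hank K).vars ⊆ {0, 1, 2, 3, 4} := by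
    unfold hank
    rw [h2]
    refine (vars_sub_subset _).trans (Finset.union_subset ((vars_sub_subset _).trans
      (Finset.union_subset ((vars_sub_subset _).trans (Finset.union_subset
      ((vars_add_subset _ _).trans (Finset.union_subset ?_ ?_)) ?_)) ?_)) ?_)
    · refine (vars_mul _ _).trans (Finset.union_subset ((vars_mul _ _).trans
        (Finset.union_subset ?_ ?_)) ?_) <;> (rw [vars_X]; simp)
    · refine (vars_mul _ _).trans (Finset.union_subset ((vars_mul _ _).trans
        (Finset.union_subset ((vars_mul _ _).trans (Finset.union_subset ?_ ?_)) ?_)) ?_) <;>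
        first | (rw [vars_X]; simp) | (rw [vars_C]; simp)
    · exact (vars_pow _ _).trans (by rw [vars_X]; simp)
    · refine (vars_mul _ _).trans (Finset.union_subset (by rw [vars_X]; simp)
        ((vars_pow _ _).trans (by rw [vars_X]; simp)))
    · refine (vars_mul _ _).trans (Finset.union_subset ((vars_pow _ _).trans (by rw [vars_X]; simp))
        (by rw [vars_X]; simp))
  have h3 := h1 hx
  clear hx
  have h4 : ∀ x : Fin 8, x ∈ ({0, 1, 2, 3, 4} : Finset (Fin 8)) → x.val ≤ 4 := by decide
  exact h4 x h3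

/-- Independent sets of the matroid of the secant variety. -/
theorem indep7 [CharZero K] (a : Fin 8) (ha : a.val ≤ 4) :
    Indep (sums (V K)) ({a}ᶜ : Set (Fin 8)) := by
  classical
  have hr : ({a}ᶜ : Set (Fin 8)) = Set.range a.succAbove := by
    rw [Fin.range_succAbove]
  rw [hr]
  let p1 : Fin 4 → K := fun _ => 1
  let p2 : Fin 4 → K := ![1, 2, 1, 2]
  let j1 : Fin 4 → Fin 4 ⊕ Fin 4 := Sum.inl
  let j2 : Fin 4 → Fin 4 ⊕ Fin 4 := Sum.inr
  refine indep_of_jac (ι := Fin 4 ⊕ Fin 4) (fun m => mon (shift p1 j1) m + mon (shift p2 j2) m)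
    (fun x => ?_) _ Fin.succAbove_right_injective ?_
  · refine ⟨_, mon_mem (fun q => p1 q + x (j1 q)), _, mon_mem (fun q => p2 q + x (j2 q)), ?_⟩
    rw [← eval_shift, ← eval_shift]
    funext i
    simp
  · intro v hv
    let w : Fin 8 → K := a.insertNth 0 v
    have hw : ∀ g : Fin 8 → K, ∑ m, w m * g m = ∑ m, v m * g (a.succAbove m) := by
      intro g
      rw [Fin.sum_univ_succAbove _ a]
      simp [w]
    have e1 : ∀ p : Fin 4, ∑ m, w m * dmon p1 m p = 0 := by
      intro p
      rw [hw, ← hv (Sum.inl p)]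
      refine Finset.sum_congr rfl fun m _ => ?_
      rw [map_add, map_add, jac_shift_ne p2 j2 _ (Sum.inl p) (by simp [j2]), add_zero,
        ← jac_shift p1 j1 Sum.inl_injective]
    have e2 : ∀ p : Fin 4, ∑ m, w m * dmon p2 m p = 0 := by
      intro p
      rw [hw, ← hv (Sum.inr p)]
      refine Finset.sum_congr rfl fun m _ => ?_
      rw [map_add, map_add, jac_shift_ne p1 j1 _ (Sum.inr p) (by simp [j1]), zero_add,
        ← jac_shift p2 j2 Sum.inr_injective]
    have hwa : w a = 0 := by simp [w]
    have key : w = 0 := by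
      have a0 := e1 0
      have a1 := e1 1
      have a2 := e1 2
      have a3 := e1 3
      have b0 := e2 0
      have b1 := e2 1
      have b2 := e2 2
      have b3 := e2 3
      clear_value w
      simp [Fin.sum_univ_eight, dmon, p1, p2] at a0 a1 a2 a3 b0 b1 b2 b3
      have h6 : w 6 = 0 := by grind
      have h5 : w 5 = 0 := by grind
      have h7 : w 7 = 0 := by grind
      have hh0 : w 0 = 4 * w 4 := by grind
      have hh1 : w 1 = -12 * w 4 := by grind
      have hh2 : w 2 = 13 * w 4 := by grind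
      have hh3 : w 3 = -6 * w 4 := by grind
      have h4 : w 4 = 0 := by
        clear a0 a1 a2 a3 b0 b1 b2 b3 h5 h6 h7 hw e1 e2 hv hr
        fin_cases a <;> simp at ha hwa <;> simp_all
      funext m
      fin_cases m <;> simp [h4, h5, h6, h7, hh0, hh1, hh2, hh3]
    funext m
    have := congrFun key (a.succAbove m)
    simpa [w] using this

end Pool.Agent.X331.TU
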